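import Pool.Agent.W78.GA.Basic
import Pool.Agent.H376R2.MR.Mom

/-!
Project GA, task 14 (and others): ideals `{z : d ∣ x + ρ(d) y}`, contents of products, second moment
of the divisor function.
-/

set_option autoImplicit false

namespace Pool.Agent.W669.GA

open Finset Filter
open Pool.Agent.H376R2.MR (lam w FK cell ge smoo_ge_le smoo_sigma_cell smoo_lcm_sum smoo_prod_dvd)
open Pool.Agent.W78.GA

variable {t c : ℤ} {Ap Bp M : ℕ → Prop} {E : ℕ} {ρ : ℕ → ℤ} {ϖ : ℕ → Qd t c}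

lemma lat_congr {d : ℕ} {r r' : ℤ} (h : (d : ℤ) ∣ r - r') {z : Qd t c} (hz : lat d r z) :
    lat d r' z := by
  unfold lat at *
  have h2 : z.re + r' * z.im = (z.re + r * z.im) - (r - r') * z.im := by ring
  rw [h2]
  exact dvd_sub hz (h.mul_right _)

lemma lat_of_dvd {d e : ℕ} {r : ℤ} (h : d ∣ e) {z : Qd t c} (hz : lat e r z) : lat d r z := by
  unfold lat at *
  exact (Int.natCast_dvd_natCast.2 h).trans hz

lemma sm_of_dvd {d e : ℕ} (h : Pool.Agent.W78.GA.Sm Ap Bp e) (hd : d ∣ e) :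
    Pool.Agent.W78.GA.Sm Ap Bp d := by
  refine ⟨?_, fun p hp hpd => h.2 p hp (hpd.trans hd)⟩
  rintro rfl
  exact h.1 (zero_dvd_iff.1 hd)

lemma lat_down (hE : Ele t c Ap Bp M E ρ ϖ) {d e : ℕ} (he : Pool.Agent.W78.GA.Sm Ap Bp e)
    (h : d ∣ e) {z : Qd t c} (hz : lat e (ρ e) z) : lat d (ρ d) z :=
  lat_congr (hE.compat d e he h) (lat_of_dvd h hz)

/-- common multiples -/
lemma lat_lcm (hE : Ele t c Ap Bp M E ρ ϖ) {a b : ℕ}
    (h : Pool.Agent.W78.GA.Sm Ap Bp (Nat.lcm a b)) {z : Qd t c}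
    (ha : lat a (ρ a) z) (hb : lat b (ρ b) z) : lat (Nat.lcm a b) (ρ (Nat.lcm a b)) z := by
  have h1 : lat a (ρ (Nat.lcm a b)) z := by
    apply lat_congr _ ha
    rw [← neg_sub, dvd_neg]
    exact hE.compat a _ h (Nat.dvd_lcm_left a b)
  have h2 : lat b (ρ (Nat.lcm a b)) z := by
    apply lat_congr _ hb
    rw [← neg_sub, dvd_neg]
    exact hE.compat b _ h (Nat.dvd_lcm_right a b)
  unfold lat at *
  rw [Int.natCast_dvd] at *
  exact Nat.lcm_dvd h1 h2

/-- the content of `β z` -/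
lemma content (hD : t ^ 2 < 4 * c) (hE : Ele t c Ap Bp M E ρ ϖ) {N : ℕ}
    (hN : Pool.Agent.W78.GA.Sm Ap Bp N) {β z : Qd t c} (hβ : nm β = N) (hβl : lat N (ρ N) β)
    (hz : prim z) : ∃ (n m : ℕ) (u : Qd t c), N = n * m ∧ prim u ∧ β * z = (n : Qd t c) * u ∧
      lat m (ρ m) u := by
  have hN0 : N ≠ 0 := hN.1
  have hβ0 : β ≠ 0 := by
    rintro rfl
    rw [nm_zero] at hβ
    exact hN0 hβ.symm
  have hz0 := prim_ne_zero hz
  set x := β * z with hx
  have hnx : nm x ≠ 0 := by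
    rw [hx, nm_mul]
    exact mul_ne_zero (by rw [hβ]; exact hN0) (nm_pos hD hz0).ne'
  have hx0 : x ≠ 0 := by
    intro h0
    rw [h0, nm_zero] at hnx
    exact hnx rfl
  set g := Int.gcd x.re x.im with hg
  have hg0 : 0 < g := by
    rw [hg, Int.gcd_pos_iff]
    by_contra hcon
    push Not at hcon
    exact hx0 (QuadraticAlgebra.ext hcon.1 hcon.2)
  have hgd : (g : Qd t c) ∣ x := natCast_dvd.2 ⟨Int.gcd_dvd_left _ _, Int.gcd_dvd_right _ _⟩
  obtain ⟨u, hu⟩ := hgd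
  have hgz : (g : ℤ) ≠ 0 := by exact_mod_cast hg0.ne'
  have hre : x.re = g * u.re := by
    rw [hu]
    simp only [QuadraticAlgebra.re_mul, QuadraticAlgebra.re_natCast, QuadraticAlgebra.im_natCast]
    ring
  have him : x.im = g * u.im := by
    rw [hu]
    simp only [QuadraticAlgebra.im_mul, QuadraticAlgebra.re_natCast, QuadraticAlgebra.im_natCast]
    ring
  have hup : prim u := by
    unfold prim
    have h1 : Int.gcd x.re x.im = g * Int.gcd u.re u.im := by
      rw [hre, him, Int.gcd_mul_left]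
      simp
    rw [← hg] at h1
    have h2 : g * Int.gcd u.re u.im = g * 1 := by rw [← h1, mul_one]
    exact Nat.eq_of_mul_eq_mul_left hg0 h2
  -- the content divides the norm
  have hgN : g ∣ N := by
    have h1 : (g : Qd t c) ∣ ((N : ℕ) : Qd t c) * z := by
      refine ⟨star β * u, ?_⟩
      calc ((N : ℕ) : Qd t c) * z = (star β * β) * z := by rw [star_mul_self' hD, hβ]
        _ = star β * x := by rw [hx, mul_assoc]
        _ = star β * ((g : Qd t c) * u) := by rw [← hu]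
        _ = (g : Qd t c) * (star β * u) := by ring
    obtain ⟨h2, h3⟩ := natCast_dvd.1 h1
    simp only [QuadraticAlgebra.re_mul, QuadraticAlgebra.im_mul, QuadraticAlgebra.re_natCast,
      QuadraticAlgebra.im_natCast, zero_mul, mul_zero, add_zero] at h2 h3
    have h4 : (g : ℤ) ∣ (Int.gcd ((N : ℤ) * z.re) ((N : ℤ) * z.im) : ℤ) := by
      apply Int.dvd_coe_gcd
      · exact h2
      · exact h3
    rw [Int.gcd_mul_left] at h4
    unfold prim at hz
    rw [hz, mul_one] at h4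
    have h5 : (g : ℤ) ∣ (N : ℤ) := by simpa using h4
    exact_mod_cast h5
  obtain ⟨m, hm⟩ := hgN
  refine ⟨g, m, u, hm, hup, hu, ?_⟩
  have hxl : lat N (ρ N) x := lat_mul_left (hE.root N hN) z hβl
  have h6 : lat m (ρ N) u := by
    unfold lat at *
    rw [hre, him, hm] at hxl
    push_cast at hxl
    have h7 : (g : ℤ) * u.re + ρ (g * m) * (g * u.im) = g * (u.re + ρ (g * m) * u.im) := by ring
    rw [h7] at hxl
    have h8 := Int.dvd_of_mul_dvd_mul_left hgz hxl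
    rw [hm]
    exact h8
  exact lat_congr (hE.compat m N hN (hm ▸ Dvd.intro_left _ rfl)) h6

lemma sm_M (hE : Ele t c Ap Bp M E ρ ϖ) {m : ℕ} (hm : M m) : Pool.Agent.W78.GA.Sm Ap Bp m := by
  obtain ⟨p, q, hp, hq, h, -, -⟩ := hE.fac m hm
  have hpp := (hE.prA p hp).1
  have hqp := (hE.prB q hq).1
  refine ⟨by rw [h]; exact mul_ne_zero hpp.ne_zero hqp.ne_zero, ?_⟩
  intro l hl hlm
  rw [h, hl.dvd_mul] at hlm
  rcases hlm with h1 | h1
  · left
    rw [(Nat.prime_dvd_prime_iff_eq hl hpp).1 h1]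
    exact hp
  · right
    rw [(Nat.prime_dvd_prime_iff_eq hl hqp).1 h1]
    exact hq

lemma sm_mul {a b : ℕ} (ha : Pool.Agent.W78.GA.Sm Ap Bp a) (hb : Pool.Agent.W78.GA.Sm Ap Bp b) :
    Pool.Agent.W78.GA.Sm Ap Bp (a * b) := by
  refine ⟨mul_ne_zero ha.1 hb.1, ?_⟩
  intro l hl hlm
  rw [hl.dvd_mul] at hlm
  rcases hlm with h1 | h1
  · exact ha.2 l hl h1
  · exact hb.2 l hl h1

lemma sm_one : Pool.Agent.W78.GA.Sm Ap Bp 1 :=
  ⟨one_ne_zero, fun _ hp h => absurd (Nat.dvd_one.1 h) hp.one_lt.ne'⟩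

lemma sm_prod {ι : Type*} (s : Finset ι) (f : ι → ℕ)
    (h : ∀ i ∈ s, Pool.Agent.W78.GA.Sm Ap Bp (f i)) :
    Pool.Agent.W78.GA.Sm Ap Bp (∏ i ∈ s, f i) := by
  classical
  induction s using Finset.induction_on with
  | empty => rw [prod_empty]; exact sm_one
  | insert a s ha ih =>
    rw [prod_insert ha]
    exact sm_mul (h a (mem_insert_self a s)) (ih fun i hi => h i (mem_insert_of_mem hi))

lemma sm_pow {a : ℕ} (ha : Pool.Agent.W78.GA.Sm Ap Bp a) (n : ℕ) :
    Pool.Agent.W78.GA.Sm Ap Bp (a ^ n) := by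
  induction n with
  | zero => rw [pow_zero]; exact sm_one
  | succ n ih => rw [pow_succ]; exact sm_mul ih ha

lemma nm_prod {ι : Type*} (s : Finset ι) (f : ι → Qd t c) :
    nm (∏ i ∈ s, f i) = ∏ i ∈ s, nm (f i) := by
  classical
  induction s using Finset.induction_on with
  | empty => rw [prod_empty, prod_empty, nm_one]
  | insert a s ha ih => rw [prod_insert ha, prod_insert ha, nm_mul, ih]

lemma nm_prod_ele (hE : Ele t c Ap Bp M E ρ ϖ) {ι : Type*} (s : Finset ι) (f : ι → ℕ)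
    (h : ∀ i ∈ s, M (f i)) : nm (∏ i ∈ s, ϖ (f i)) = ∏ i ∈ s, f i := by
  rw [nm_prod]
  exact prod_congr rfl fun i hi => (hE.elt (f i) (h i hi)).1

lemma lat_prod_ele (hE : Ele t c Ap Bp M E ρ ϖ) {ι : Type*} (s : Finset ι) (f : ι → ℕ)
    (h : ∀ i ∈ s, M (f i)) : lat (∏ i ∈ s, f i) (ρ (∏ i ∈ s, f i)) (∏ i ∈ s, ϖ (f i)) := by
  classical
  set N := ∏ i ∈ s, f i with hN
  have hNs : Pool.Agent.W78.GA.Sm Ap Bp N := sm_prod s f fun i hi => sm_M hE (h i hi)
  have key : ∀ s' : Finset ι, s' ⊆ s → lat (∏ i ∈ s', f i) (ρ N) (∏ i ∈ s', ϖ (f i)) := by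
    intro s'
    induction s' using Finset.induction_on with
    | empty =>
      intro _
      rw [prod_empty, prod_empty]
      unfold lat
      simp
    | insert a s' ha ih =>
      intro hsub
      rw [prod_insert ha, prod_insert ha]
      have hd : (f a * ∏ i ∈ s', f i) ∣ N := by
        rw [← prod_insert ha]
        exact prod_dvd_prod_of_subset _ _ _ hsub
      apply lat_mul_lat
      · exact (Int.natCast_dvd_natCast.2 hd).trans (hE.root N hNs)
      · have h1 := (hE.elt (f a) (h a (hsub (mem_insert_self a s')))).2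
        apply lat_congr _ h1
        rw [← neg_sub, dvd_neg]
        exact hE.compat _ _ hNs ((Dvd.intro _ rfl).trans hd)
      · exact ih fun i hi => hsub (mem_insert_of_mem hi)
  exact key s (Finset.Subset.refl s)

/-! ### sums over lattice points -/

lemma lati_sum (hD : t ^ 2 < 4 * c) (hL : S_LATI t c) : ∃ C : ℝ, 0 < C ∧
    ∀ (A B : ℝ) (d : ℕ) (r : ℤ) (s : Finset (Qd t c)),
    0 < A → A ≤ B → 1 ≤ d → (d : ℤ) ∣ r ^ 2 - t * r + c →
    (∀ z ∈ s, z ≠ 0 ∧ lat d r z ∧ A ≤ (nm z : ℝ) ∧ (nm z : ℝ) ≤ B) →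
    ∑ z ∈ s, 1 / (nm z : ℝ) ≤ 1 / (d : ℝ) * (C * (1 + Real.log (B / A))) := by
  obtain ⟨C, hC, h⟩ := hL
  refine ⟨2 * C, by positivity, ?_⟩
  intro A B d r s hA hAB hd hr hs
  have hB : 0 < B := by linarith
  have hd0 : (0 : ℝ) < d := by exact_mod_cast hd
  have hlog : 0 ≤ Real.log (B / A) := Real.log_nonneg (by rwa [le_div_iff₀ hA, one_mul])
  obtain ⟨-, -, h3⟩ := h d r hd hr
  have hsub : s ⊆ (ann t c (A / 2) B).filter (lat d r) := by
    intro z hz
    obtain ⟨h1, h2, h4, h5⟩ := hs z hz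
    rw [mem_filter, mem_ann hD]
    exact ⟨⟨(one_le_nm hD).2 h1, by linarith, h5⟩, h2⟩
  calc ∑ z ∈ s, 1 / (nm z : ℝ) ≤ ∑ z ∈ (ann t c (A / 2) B).filter (lat d r), 1 / (nm z : ℝ) :=
        sum_le_sum_of_subset_of_nonneg hsub fun _ _ _ => by positivity
    _ ≤ C / d * (1 + Real.log (B / (A / 2))) := h3 (A / 2) B (by positivity) (by linarith)
    _ = C / d * (1 + (Real.log (B / A) + Real.log 2)) := by
        have e1 : B / (A / 2) = B / A * 2 := by field_simp
        rw [e1, Real.log_mul (by positivity) two_ne_zero]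
    _ ≤ C / d * (2 * (1 + Real.log (B / A))) := by
        have := Real.log_two_lt_d9
        gcongr
        linarith
    _ = _ := by ring

/-- number of divisors `m` of `N` with `z` in the ideal of norm `m` -/
noncomputable def tauL (ρ : ℕ → ℤ) (N : ℕ) (z : Qd t c) : ℕ :=
  (N.divisors.filter (fun m => lat m (ρ m) z)).card

/-- second moment of the restricted divisor function -/
lemma tau_sum (hD : t ^ 2 < 4 * c) (hL : S_LATI t c) : ∃ C : ℝ, 0 < C ∧
    ∀ (Ap Bp M : ℕ → Prop) (E : ℕ) (ρ : ℕ → ℤ) (ϖ : ℕ → Qd t c), Ele t c Ap Bp M E ρ ϖ →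
    ∀ (N : ℕ) (A B : ℝ) (s : Finset (Qd t c)),
    Pool.Agent.W78.GA.Sm Ap Bp N → 0 < A → A ≤ B →
    (∀ z ∈ s, z ≠ 0 ∧ A ≤ (nm z : ℝ) ∧ (nm z : ℝ) ≤ B) →
    ∑ z ∈ s, (tauL ρ N z : ℝ) ^ 2 / (nm z : ℝ) ≤
      C * (1 + Real.log (B / A)) * (∑ d ∈ N.divisors, 1 / (d : ℝ)) ^ 3 := by
  classical
  obtain ⟨C, hC, h1⟩ := lati_sum hD hL
  refine ⟨C, hC, ?_⟩
  intro Ap Bp M E ρ ϖ hE N A B s hN hA hAB hs
  have hlog : 0 ≤ Real.log (B / A) := Real.log_nonneg (by rwa [le_div_iff₀ hA, one_mul])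
  have hlcm : ∀ a ∈ N.divisors, ∀ b ∈ N.divisors, Pool.Agent.W78.GA.Sm Ap Bp (Nat.lcm a b) := by
    intro a ha b hb
    exact sm_of_dvd hN (Nat.lcm_dvd (Nat.dvd_of_mem_divisors ha) (Nat.dvd_of_mem_divisors hb))
  have hexp : ∀ z : Qd t c, (tauL ρ N z : ℝ) ^ 2 / (nm z : ℝ) ≤
      ∑ a ∈ N.divisors, ∑ b ∈ N.divisors,
        (if lat (Nat.lcm a b) (ρ (Nat.lcm a b)) z then 1 / (nm z : ℝ) else 0) := by
    intro z
    have hc : (tauL ρ N z : ℝ) = ∑ a ∈ N.divisors, (if lat a (ρ a) z then (1 : ℝ) else 0) := by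
      unfold tauL
      rw [card_filter]
      push_cast
      rfl
    rw [hc, pow_two, sum_mul_sum, sum_div]
    apply sum_le_sum
    intro a ha
    rw [sum_div]
    apply sum_le_sum
    intro b hb
    by_cases hP : lat a (ρ a) z
    · by_cases hQ : lat b (ρ b) z
      · rw [if_pos hP, if_pos hQ, if_pos (lat_lcm hE (hlcm a ha b hb) hP hQ)]
        simp
      · rw [if_neg hQ]
        simp only [mul_zero, zero_div]
        split_ifs <;> positivity
    · rw [if_neg hP]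
      simp only [zero_mul, zero_div]
      split_ifs <;> positivity
  calc ∑ z ∈ s, (tauL ρ N z : ℝ) ^ 2 / (nm z : ℝ)
      ≤ ∑ z ∈ s, ∑ a ∈ N.divisors, ∑ b ∈ N.divisors,
        (if lat (Nat.lcm a b) (ρ (Nat.lcm a b)) z then 1 / (nm z : ℝ) else 0) :=
          sum_le_sum fun z _ => hexp z
    _ = ∑ a ∈ N.divisors, ∑ b ∈ N.divisors,
        ∑ z ∈ s.filter (fun z => lat (Nat.lcm a b) (ρ (Nat.lcm a b)) z), 1 / (nm z : ℝ) := by
        rw [sum_comm]
        apply sum_congr rfl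
        intro a _
        rw [sum_comm]
        apply sum_congr rfl
        intro b _
        rw [sum_filter]
    _ ≤ ∑ a ∈ N.divisors, ∑ b ∈ N.divisors,
        1 / ((Nat.lcm a b : ℕ) : ℝ) * (C * (1 + Real.log (B / A))) := by
        apply sum_le_sum
        intro a ha
        apply sum_le_sum
        intro b hb
        have hl := hlcm a ha b hb
        exact h1 A B (Nat.lcm a b) (ρ (Nat.lcm a b)) _ hA hAB
          (Nat.one_le_iff_ne_zero.2 hl.1) (hE.root _ hl) (by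
            intro z hz
            rw [mem_filter] at hz
            obtain ⟨h2, h3, h4⟩ := hs z hz.1
            exact ⟨h2, hz.2, h3, h4⟩)
    _ = (∑ a ∈ N.divisors, ∑ b ∈ N.divisors, 1 / ((Nat.lcm a b : ℕ) : ℝ)) *
        (C * (1 + Real.log (B / A))) := by
        rw [sum_mul]
        apply sum_congr rfl
        intro a _
        rw [sum_mul]
    _ ≤ (∑ d ∈ N.divisors, 1 / (d : ℝ)) ^ 3 * (C * (1 + Real.log (B / A))) := by
        apply mul_le_mul_of_nonneg_right _ (by positivity)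
        exact smoo_lcm_sum N hN.1 N.divisors fun a ha => Nat.dvd_of_mem_divisors ha
    _ = _ := by ring

end Pool.Agent.W669.GA
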