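import Pool.Agent.W669.GA.Tup

/-!
Project GA, task 14: mixed moments `∑ |PE^ℓ GG|^2`.
-/

set_option autoImplicit false

namespace Pool.Agent.W669.GA

open Finset Filter
open Pool.Agent.H376R2.MR (lam w FK cell ge smoo_ge_le smoo_sigma_cell smoo_lcm_sum smoo_prod_dvd
  mom_w_nonneg mom_w_le_one)
open Pool.Agent.W78.GA

variable {t c : ℤ} {Ap Bp M : ℕ → Prop} {E : ℕ} {ρ : ℕ → ℤ} {ϖ : ℕ → Qd t c}

lemma ps_prod (hD : t ^ 2 < 4 * c) {ι : Type*} (s : Finset ι) (f : ι → Qd t c) (k : ℤ) :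
    ∏ i ∈ s, ps k (f i) = ps k (∏ i ∈ s, f i) := by
  classical
  induction s using Finset.induction_on with
  | empty =>
    rw [prod_empty, prod_empty]
    have := ps_natCast (t := t) (c := c) (n := 1) one_pos k
    simpa using this.symm
  | insert a s ha ih => rw [prod_insert ha, prod_insert ha, ps_mul hD, ih]

theorem PE_pow (hD : t ^ 2 < 4 * c) (M : ℕ → Prop) (ϖ : ℕ → Qd t c) (H r ℓ : ℕ) {k : ℤ}
    (hk : Even k) :
    PE M ϖ H r k ^ ℓ = (-1) ^ ℓ * ∑ m ∈ Fintype.piFinset (fun _ : Fin ℓ => cellM M H r),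
      ps k (∏ i, ϖ (m i)) / ((∏ i, m i : ℕ) : ℂ) := by
  unfold PE
  rw [if_pos hk, neg_pow, Finset.sum_pow']
  congr 1
  apply Finset.sum_congr rfl
  intro m hm
  rw [Finset.prod_div_distrib, ps_prod hD]
  congr 1
  push_cast
  rfl

theorem bg_ne {Z : ℝ} (hZ : 0 < Z) {z : Qd t c} (h : bg Z z ≠ 0) :
    Z / Real.exp 1 ≤ (nm z : ℝ) ∧ (nm z : ℝ) ≤ Real.exp 1 * Z := by
  unfold bg at h
  have h1 : (nm z : ℝ) ≠ 0 := by
    intro h0
    apply h
    rw [h0, div_zero]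
  have h2 : w (Real.log (nm z) - Real.log Z) ≠ 0 := by
    intro h0
    apply h
    rw [h0, zero_div]
  have h3 : |Real.log (nm z) - Real.log Z| ≤ 1 := by
    by_contra hc
    push Not at hc
    apply h2
    unfold w
    rw [max_eq_left]
    linarith
  have hpos : (0 : ℝ) < nm z := lt_of_le_of_ne (Nat.cast_nonneg _) (Ne.symm h1)
  rw [abs_le] at h3
  have he := Real.exp_pos 1
  refine ⟨?_, ?_⟩
  · rw [← Real.log_le_log_iff (by positivity) hpos, Real.log_div hZ.ne' he.ne', Real.log_exp]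
    linarith [h3.1]
  · rw [← Real.log_le_log_iff hpos (by positivity), Real.log_mul he.ne' hZ.ne', Real.log_exp]
    linarith [h3.2]

theorem coef_norm (Z : ℝ) (z : Qd t c) :
    ‖(gl z : ℂ) * (bg Z z : ℂ)‖ ≤ 1 / nm z := by
  have h1 : ‖(gl z : ℂ)‖ ≤ 1 := by
    rw [Complex.norm_intCast]
    rcases gl_eq z with h | h <;> rw [h] <;> norm_num
  have h2 : 0 ≤ bg Z z := by
    unfold bg
    have := mom_w_nonneg (Real.log (nm z) - Real.log Z)
    positivity
  have h3 : bg Z z ≤ 1 / nm z := by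
    unfold bg
    have := mom_w_le_one (Real.log (nm z) - Real.log Z)
    gcongr
  rw [norm_mul, Complex.norm_real, Real.norm_of_nonneg h2]
  calc ‖(gl z : ℂ)‖ * bg Z z ≤ 1 * bg Z z := mul_le_mul_of_nonneg_right h1 h2
    _ = bg Z z := one_mul _
    _ ≤ _ := h3

/-- the support of the window coefficients -/
noncomputable def SG (t c : ℤ) (Z : ℝ) : Finset (Qd t c) :=
  (pball t c (Real.exp 1 * Z)).filter (fun z => bg Z z ≠ 0)

theorem mem_SG (hD : t ^ 2 < 4 * c) {Z : ℝ} (hZ : 0 < Z) {z : Qd t c} (h : z ∈ SG t c Z) :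
    prim z ∧ Z / Real.exp 1 ≤ (nm z : ℝ) ∧ (nm z : ℝ) ≤ Real.exp 1 * Z := by
  unfold SG at h
  rw [mem_filter, mem_pball hD] at h
  exact ⟨h.1.1, bg_ne hZ h.2⟩

theorem GG_filter (t c : ℤ) (Z : ℝ) (k : ℤ) :
    GG t c Z k = ∑ z ∈ SG t c Z, (gl z : ℂ) * (bg Z z : ℂ) * ps k z := by
  unfold GG DPG SG
  rw [Finset.sum_filter_of_ne]
  intro n _ hn h0
  apply hn
  rw [h0]
  simp

/-- index pairs -/
noncomputable def PrG (t c : ℤ) (M : ℕ → Prop) (H r ℓ : ℕ) (Z : ℝ) :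
    Finset ((Fin ℓ → ℕ) × Qd t c) :=
  (Fintype.piFinset (fun _ : Fin ℓ => cellM M H r)) ×ˢ SG t c Z

/-- coefficient of an index pair -/
noncomputable def cfG (ℓ : ℕ) (Z : ℝ) (x : (Fin ℓ → ℕ) × Qd t c) : ℂ :=
  ((gl x.2 : ℂ) * (bg Z x.2 : ℂ)) / ((∏ i, x.1 i : ℕ) : ℂ)

theorem prod_expand (hD : t ^ 2 < 4 * c) (M : ℕ → Prop) (ϖ : ℕ → Qd t c) (H r ℓ : ℕ) (Z : ℝ)
    {k : ℤ} (hk : Even k) :
    PE M ϖ H r k ^ ℓ * GG t c Z k =
      (-1) ^ ℓ * ∑ x ∈ PrG t c M H r ℓ Z, cfG ℓ Z x * ps k ((∏ i, ϖ (x.1 i)) * x.2) := by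
  rw [PE_pow hD M ϖ H r ℓ hk, GG_filter, mul_assoc, Finset.sum_mul_sum, ← Finset.sum_product']
  congr 1
  apply Finset.sum_congr rfl
  intro x _
  unfold cfG
  rw [ps_mul hD]
  ring

/-- the pairs giving the element `n * u` with content `n`: their number -/
theorem count_pairs (hD : t ^ 2 < 4 * c) (hE : Ele t c Ap Bp M E ρ ϖ) {H r ℓ : ℕ} {Z : ℝ}
    (cf mf : (Fin ℓ → ℕ) × Qd t c → ℕ) (uf : (Fin ℓ → ℕ) × Qd t c → Qd t c)
    (hf : ∀ x ∈ PrG t c M H r ℓ Z, (∏ i, x.1 i) = cf x * mf x ∧ prim (uf x) ∧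
      (∏ i, ϖ (x.1 i)) * x.2 = (cf x : Qd t c) * uf x ∧ lat (mf x) (ρ (mf x)) (uf x))
    (n : ℕ) (u : Qd t c) :
    (((PrG t c M H r ℓ Z).filter (fun x => cf x = n)).filter (fun x => uf x = u)).card ≤
      ℓ.factorial ^ 2 * tauL ρ (Big Ap Bp E H r ℓ) u := by
  classical
  set N := Big Ap Bp E H r ℓ with hNdef
  have hN : N ≠ 0 := (big_sm Ap Bp E H r ℓ).1
  set S := ((PrG t c M H r ℓ Z).filter (fun x => cf x = n)).filter (fun x => uf x = u) with hS
  set T := Fintype.piFinset (fun _ : Fin ℓ => cellM M H r) with hT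
  have hdvd : ∀ p ∈ T, (∏ i, p i) ∣ N := fun p hp => tuple_dvd_big hE hp
  have hmemS : ∀ x ∈ S, x ∈ PrG t c M H r ℓ Z ∧ cf x = n ∧ uf x = u := by
    intro x hx
    rw [hS, mem_filter, mem_filter] at hx
    exact ⟨hx.1.1, hx.1.2, hx.2⟩
  -- split according to `m`
  have hmaps : ∀ x ∈ S, mf x ∈ N.divisors.filter (fun m => lat m (ρ m) u) := by
    intro x hx
    obtain ⟨h1, h2, h3⟩ := hmemS x hx
    obtain ⟨h4, h5, h6, h7⟩ := hf x h1
    unfold PrG at h1
    rw [mem_product] at h1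
    rw [mem_filter, Nat.mem_divisors]
    refine ⟨⟨?_, hN⟩, ?_⟩
    · exact (Dvd.intro_left _ h4.symm).trans (hdvd _ h1.1)
    · rw [← h3]; exact h7
  have hcard := card_eq_sum_card_fiberwise (f := mf) (s := S) hmaps
  rw [hcard]
  calc ∑ m ∈ N.divisors.filter (fun m => lat m (ρ m) u), (S.filter (fun x => mf x = m)).card
      ≤ ∑ m ∈ N.divisors.filter (fun m => lat m (ρ m) u), ℓ.factorial ^ 2 := by
        apply sum_le_sum
        intro m _
        refine le_trans ?_ (tuple_count hE H r ℓ (n * m))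
        apply card_le_card_of_injOn (fun x => x.1)
        · intro x hx
          rw [mem_coe, mem_filter] at hx
          obtain ⟨h1, h2, h3⟩ := hmemS x hx.1
          obtain ⟨h4, h5, h6, h7⟩ := hf x h1
          unfold PrG at h1
          rw [mem_product] at h1
          rw [mem_coe, mem_filter]
          refine ⟨h1.1, ?_⟩
          rw [h4, h2, hx.2]
        · intro x hx y hy hxy
          rw [mem_coe, mem_filter] at hx hy
          obtain ⟨h1, h2, h3⟩ := hmemS x hx.1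
          obtain ⟨h4, h5, h6, h7⟩ := hf x h1
          obtain ⟨k1, k2, k3⟩ := hmemS y hy.1
          obtain ⟨k4, k5, k6, k7⟩ := hf y k1
          have hxy' : x.1 = y.1 := hxy
          apply Prod.ext hxy'
          rw [← hxy', k2, k3, ← h2, ← h3, ← h6] at k6
          unfold PrG at h1
          rw [mem_product, Fintype.mem_piFinset] at h1
          -- the product of the elements is not zero
          have hnm := nm_prod_ele hE (univ : Finset (Fin ℓ)) x.1
            (fun i _ => (mem_cellM (h1.1 i)).1)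
          have hg : nm (∏ i, ϖ (x.1 i)) ≠ 0 := by
            rw [hnm]
            exact prod_ne_zero_iff.2 fun i _ => (M_pos hE (mem_cellM (h1.1 i)).1).ne'
          have hg0 : (∏ i, ϖ (x.1 i)) ≠ 0 := by
            intro h0
            rw [h0, nm_zero] at hg
            exact hg rfl
          -- cancel
          have h8 : (∏ i, ϖ (x.1 i)) * (y.2 - x.2) = 0 := by
            rw [mul_sub, k6, sub_self]
          have h9 : nm (y.2 - x.2) = 0 := by
            have h10 : nm ((∏ i, ϖ (x.1 i)) * (y.2 - x.2)) = 0 := by rw [h8, nm_zero]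
            rw [nm_mul] at h10
            exact (Nat.mul_eq_zero.1 h10).resolve_left hg
          have h11 : y.2 - x.2 = 0 := (nm_eq_zero hD).1 h9
          exact (sub_eq_zero.1 h11).symm
    _ = ℓ.factorial ^ 2 * tauL ρ N u := by
        rw [sum_const, smul_eq_mul, mul_comm]
        unfold tauL
        rfl

theorem cs_div (D : Finset ℕ) (hD : ∀ n ∈ D, 0 < n) (F : ℕ → ℂ) :
    ‖∑ n ∈ D, F n‖ ^ 2 ≤ (∑ n ∈ D, 1 / (n : ℝ)) * ∑ n ∈ D, (n : ℝ) * ‖F n‖ ^ 2 := by
  refine le_trans (pow_le_pow_left₀ (norm_nonneg _) (norm_sum_le _ _) 2) ?_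
  apply Finset.sum_sq_le_sum_mul_sum_of_sq_le_mul
  · intro n _; positivity
  · intro n _; positivity
  · intro n hn
    have hcpos : 0 < (n : ℝ) := by exact_mod_cast hD n hn
    apply le_of_eq
    field_simp

end Pool.Agent.W669.GA
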