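import Pool.Agent.W669.GA.Lt
import Pool.Agent.Helper256.KM.E1

/-!
Project GA, task 14 (and others): tuples of elements of a cell.
-/

set_option autoImplicit false

namespace Pool.Agent.W669.GA

open Finset Filter
open Pool.Agent.H376R2.MR (lam w FK cell ge smoo_ge_le smoo_sigma_cell smoo_lcm_sum smoo_prod_dvd)
open Pool.Agent.W78.GA

variable {t c : ℤ} {Ap Bp M : ℕ → Prop} {E : ℕ} {ρ : ℕ → ℤ} {ϖ : ℕ → Qd t c}

lemma mem_cellM {H v m : ℕ} (hm : m ∈ cellM M H v) :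
    M m ∧ (v : ℝ) / H ≤ Real.log m ∧ Real.log m < ((v : ℝ) + 1) / H := by
  classical
  unfold cellM at hm
  rw [mem_filter] at hm
  exact hm.2

lemma M_pos (hE : Ele t c Ap Bp M E ρ ϖ) {m : ℕ} (hm : M m) : 0 < m :=
  Nat.pos_of_ne_zero (sm_M hE hm).1

open Classical in
/-- the primes which can divide the elements of the cell -/
noncomputable def Pset (Ap Bp : ℕ → Prop) (E H v : ℕ) : Finset ℕ :=
  (Icc 1 ⌊Real.exp (((v : ℝ) + 1) / H)⌋₊).filter
    (fun p => (Ap p ∨ Bp p) ∧ p.Prime ∧ 5 ≤ p ∧ (v : ℝ) / H ≤ (E + 1) * Real.log p)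

lemma mem_Pset {H v p : ℕ} : p ∈ Pset Ap Bp E H v ↔
    (1 ≤ p ∧ p ≤ ⌊Real.exp (((v : ℝ) + 1) / H)⌋₊) ∧ (Ap p ∨ Bp p) ∧ p.Prime ∧ 5 ≤ p ∧
      (v : ℝ) / H ≤ (E + 1) * Real.log p := by
  classical
  unfold Pset
  rw [mem_filter, mem_Icc]

/-- the sum of the reciprocals of the primes in `Pset` is bounded -/
lemma Pset_sum : ∃ C : ℝ, 0 ≤ C ∧ ∀ (Ap Bp : ℕ → Prop) (E H v : ℕ), 1 ≤ H →
    ∑ p ∈ Pset Ap Bp E H v, 1 / (p : ℝ) ≤ C * (E + 1) := by
  obtain ⟨C, hC, hm⟩ := Pool.Agent.Helper256.KM.e1_mertens_log'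
  refine ⟨2 * C, by positivity, ?_⟩
  intro Ap Bp E H v hH
  have hH0 : (0 : ℝ) < H := by exact_mod_cast hH
  have hH1 : (1 : ℝ) ≤ H := by exact_mod_cast hH
  rcases (Pset Ap Bp E H v).eq_empty_or_nonempty with he | ⟨p₀, hp₀⟩
  · rw [he, sum_empty]
    positivity
  · obtain ⟨⟨h1, h2⟩, h3, h4, h5, h6⟩ := mem_Pset.1 hp₀
    set y := Real.exp (((v : ℝ) + 1) / H) with hy
    have hy5 : (5 : ℝ) ≤ y := by
      have h7 : ((p₀ : ℕ) : ℝ) ≤ y := (Nat.le_floor_iff (Real.exp_pos _).le).1 h2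
      have h8 : (5 : ℝ) ≤ p₀ := by exact_mod_cast h5
      linarith
    have hlog5 : (1 : ℝ) < Real.log 5 := by
      rw [Real.lt_log_iff_exp_lt (by norm_num)]
      have := Real.exp_one_lt_three
      linarith
    have hlogy : Real.log y = ((v : ℝ) + 1) / H := Real.log_exp _
    have hv1 : 1 ≤ v := by
      by_contra hcon
      have hv0 : v = 0 := by omega
      have h9 : Real.log 5 ≤ Real.log y := Real.log_le_log (by norm_num) hy5
      rw [hlogy, hv0] at h9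
      have : ((0 : ℕ) + 1 : ℝ) / H ≤ 1 := by
        rw [Nat.cast_zero, zero_add, div_le_one hH0]
        exact hH1
      linarith
    have hv1R : (1 : ℝ) ≤ v := by exact_mod_cast hv1
    have h10 := hm y (by linarith)
    calc ∑ p ∈ Pset Ap Bp E H v, 1 / (p : ℝ)
        ≤ ∑ p ∈ Pset Ap Bp E H v, (E + 1) * H / v * (Real.log p / p) := by
          apply sum_le_sum
          intro p hp
          obtain ⟨⟨g1, g2⟩, g3, g4, g5, g6⟩ := mem_Pset.1 hp
          have hp0 : (0 : ℝ) < p := by exact_mod_cast g4.pos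
          have g7 : 1 ≤ (E + 1) * H / v * Real.log p := by
            rw [div_mul_eq_mul_div, le_div_iff₀ (by linarith), one_mul]
            rw [div_le_iff₀ hH0] at g6
            linarith
          calc 1 / (p : ℝ) ≤ ((E + 1) * H / v * Real.log p) / p := by gcongr
            _ = _ := by ring
      _ = (E + 1) * H / v * ∑ p ∈ Pset Ap Bp E H v, Real.log p / p := by rw [mul_sum]
      _ ≤ (E + 1) * H / v * ∑ p ∈ (Finset.Icc 1 ⌊y⌋₊).filter Nat.Prime, Real.log p / p := by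
          apply mul_le_mul_of_nonneg_left _ (by positivity)
          apply sum_le_sum_of_subset_of_nonneg
          · intro p hp
            obtain ⟨g1, g3, g4, g5, g6⟩ := mem_Pset.1 hp
            rw [mem_filter, mem_Icc]
            exact ⟨g1, g4⟩
          · intro p _ _
            exact div_nonneg (Real.log_natCast_nonneg p) (Nat.cast_nonneg p)
      _ ≤ (E + 1) * H / v * (C * Real.log y) := by gcongr
      _ = C * (E + 1) * ((v + 1) / v) := by
          rw [hlogy]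
          field_simp
      _ ≤ C * (E + 1) * 2 := by
          have : ((v : ℝ) + 1) / v ≤ 2 := by
            rw [div_le_iff₀ (by linarith)]
            linarith
          gcongr
      _ = _ := by ring

/-- factorization of the elements of a cell -/
lemma cell_fac (hE : Ele t c Ap Bp M E ρ ϖ) {H v m : ℕ} (hm : m ∈ cellM M H v) :
    ∃ p q : ℕ, m = p * q ∧ Ap p ∧ Bp q ∧ p.Prime ∧ q.Prime ∧ p ≠ q ∧
      p ∈ Pset Ap Bp E H v ∧ q ∈ Pset Ap Bp E H v := by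
  obtain ⟨hM, h1, h2⟩ := mem_cellM hm
  obtain ⟨p, q, hp, hq, h, h3, h4⟩ := hE.fac m hM
  obtain ⟨hpp, hp5, -⟩ := hE.prA p hp
  obtain ⟨hqp, hq5, -⟩ := hE.prB q hq
  have hm0 : 0 < m := M_pos hE hM
  have hp0 : (0 : ℝ) < p := by exact_mod_cast hpp.pos
  have hq0 : (0 : ℝ) < q := by exact_mod_cast hqp.pos
  have hmR : (0 : ℝ) < m := by exact_mod_cast hm0
  have hlogm : Real.log m = Real.log p + Real.log q := by
    rw [h]
    push_cast
    rw [Real.log_mul hp0.ne' hq0.ne']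
  have hme : (m : ℝ) ≤ Real.exp (((v : ℝ) + 1) / H) := by
    rw [← Real.log_le_iff_le_exp hmR]
    exact h2.le
  have hlp : Real.log p ≤ E * Real.log q := by
    rw [← Real.log_pow]
    apply Real.log_le_log hp0
    exact_mod_cast h3
  have hlq : Real.log q ≤ E * Real.log p := by
    rw [← Real.log_pow]
    apply Real.log_le_log hq0
    exact_mod_cast h4
  have hpm : p ≤ m := Nat.le_of_dvd hm0 (h ▸ Dvd.intro _ rfl)
  have hqm : q ≤ m := Nat.le_of_dvd hm0 (h ▸ Dvd.intro_left _ rfl)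
  refine ⟨p, q, h, hp, hq, hpp, hqp, ?_, ?_, ?_⟩
  · rintro rfl
    exact hE.disj p hp hq
  · rw [mem_Pset]
    refine ⟨⟨hpp.one_lt.le, Nat.le_floor ?_⟩, Or.inl hp, hpp, hp5, by linarith⟩
    exact le_trans (by exact_mod_cast hpm) hme
  · rw [mem_Pset]
    refine ⟨⟨hqp.one_lt.le, Nat.le_floor ?_⟩, Or.inr hq, hqp, hq5, by linarith⟩
    exact le_trans (by exact_mod_cast hqm) hme

/-- the modulus -/
noncomputable def Big (Ap Bp : ℕ → Prop) (E H v ℓ : ℕ) : ℕ := (∏ p ∈ Pset Ap Bp E H v, p) ^ ℓ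

lemma big_sm (Ap Bp : ℕ → Prop) (E H v ℓ : ℕ) :
    Pool.Agent.W78.GA.Sm Ap Bp (Big Ap Bp E H v ℓ) := by
  apply sm_pow
  apply sm_prod
  intro p hp
  obtain ⟨g1, g3, g4, g5, g6⟩ := mem_Pset.1 hp
  refine ⟨g4.ne_zero, fun q hq hqp => ?_⟩
  rw [(Nat.prime_dvd_prime_iff_eq hq g4).1 hqp]
  exact g3

lemma cell_dvd_prod (hE : Ele t c Ap Bp M E ρ ϖ) {H v m : ℕ} (hm : m ∈ cellM M H v) :
    m ∣ ∏ p ∈ Pset Ap Bp E H v, p := by
  obtain ⟨p, q, h, -, -, hp, hq, hpq, h1, h2⟩ := cell_fac hE hm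
  rw [h]
  exact Nat.Coprime.mul_dvd_of_dvd_of_dvd ((Nat.coprime_primes hp hq).2 hpq)
    (dvd_prod_of_mem _ h1) (dvd_prod_of_mem _ h2)

lemma tuple_dvd_big (hE : Ele t c Ap Bp M E ρ ϖ) {H v ℓ : ℕ} {m : Fin ℓ → ℕ}
    (hm : m ∈ Fintype.piFinset fun _ : Fin ℓ => cellM M H v) :
    (∏ i, m i) ∣ Big Ap Bp E H v ℓ := by
  rw [Fintype.mem_piFinset] at hm
  have h : Big Ap Bp E H v ℓ = ∏ _i : Fin ℓ, (∏ p ∈ Pset Ap Bp E H v, p) := by
    unfold Big
    simp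
  rw [h]
  exact prod_dvd_prod_of_dvd _ _ (fun i _ => cell_dvd_prod hE (hm i))

/-- `A`-part is determined -/
lemma part_unique {p q p' q' : ℕ} (hA : ∀ l : ℕ, l.Prime → l ∣ p → Ap l)
    (hB : ∀ l : ℕ, l.Prime → l ∣ q → Bp l) (hA' : ∀ l : ℕ, l.Prime → l ∣ p' → Ap l)
    (hB' : ∀ l : ℕ, l.Prime → l ∣ q' → Bp l) (hdisj : ∀ l, Ap l → ¬ Bp l)
    (hp : 0 < p) (h : p * q = p' * q') : p = p' ∧ q = q' := by
  have h1 : Nat.Coprime p q' := by
    rw [Nat.coprime_iff_gcd_eq_one]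
    by_contra hne
    obtain ⟨l, hl, hld⟩ := Nat.exists_prime_and_dvd hne
    exact hdisj l (hA l hl (hld.trans (Nat.gcd_dvd_left _ _)))
      (hB' l hl (hld.trans (Nat.gcd_dvd_right _ _)))
  have h2 : Nat.Coprime p' q := by
    rw [Nat.coprime_iff_gcd_eq_one]
    by_contra hne
    obtain ⟨l, hl, hld⟩ := Nat.exists_prime_and_dvd hne
    exact hdisj l (hA' l hl (hld.trans (Nat.gcd_dvd_left _ _)))
      (hB l hl (hld.trans (Nat.gcd_dvd_right _ _)))
  have h3 : p ∣ p' := by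
    apply h1.dvd_of_dvd_mul_right
    rw [← h]
    exact Dvd.intro _ rfl
  have h4 : p' ∣ p := by
    apply h2.dvd_of_dvd_mul_right
    rw [h]
    exact Dvd.intro _ rfl
  have h5 : p = p' := Nat.dvd_antisymm h3 h4
  refine ⟨h5, ?_⟩
  rw [← h5] at h
  exact Nat.eq_of_mul_eq_mul_left hp h

/-- ordered tuples with a given product: at most `(ℓ!)^2` -/
lemma tuple_count (hE : Ele t c Ap Bp M E ρ ϖ) (H v ℓ N : ℕ) :
    ((Fintype.piFinset fun _ : Fin ℓ => cellM M H v).filter (fun m => (∏ i, m i) = N)).card ≤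
      ℓ.factorial ^ 2 := by
  classical
  have hch : ∀ m : ℕ, ∃ pq : ℕ × ℕ, m ∈ cellM M H v → m = pq.1 * pq.2 ∧ Ap pq.1 ∧ Bp pq.2 ∧
      pq.1.Prime ∧ pq.2.Prime ∧ pq.1 ∈ Pset Ap Bp E H v ∧ pq.2 ∈ Pset Ap Bp E H v := by
    intro m
    by_cases hm : m ∈ cellM M H v
    · obtain ⟨p, q, h, h1, h2, h3, h4, h5, h6, h7⟩ := cell_fac hE hm
      exact ⟨(p, q), fun _ => ⟨h, h1, h2, h3, h4, h6, h7⟩⟩
    · exact ⟨(0, 0), fun h => absurd h hm⟩
  choose f hf using hch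
  set S := (Fintype.piFinset fun _ : Fin ℓ => cellM M H v).filter (fun m => (∏ i, m i) = N) with hS
  rcases S.eq_empty_or_nonempty with he | ⟨m₀, hm₀⟩
  · rw [he, card_empty]
    positivity
  set P₀ := ∏ i, (f (m₀ i)).1 with hP0
  set Q₀ := ∏ i, (f (m₀ i)).2 with hQ0
  have hmem : ∀ m ∈ S, (∀ i, m i ∈ cellM M H v) ∧ (∏ i, m i) = N := by
    intro m hm
    rw [hS, mem_filter, Fintype.mem_piFinset] at hm
    exact hm
  have hparts : ∀ m ∈ S, (∏ i, (f (m i)).1) = P₀ ∧ (∏ i, (f (m i)).2) = Q₀ := by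
    intro m hm
    obtain ⟨h1, h2⟩ := hmem m hm
    obtain ⟨g1, g2⟩ := hmem m₀ hm₀
    have hA : ∀ m : Fin ℓ → ℕ, (∀ i, m i ∈ cellM M H v) → ∀ l : ℕ, l.Prime →
        l ∣ ∏ i, (f (m i)).1 → Ap l := by
      intro m hm l hl hld
      rw [Prime.dvd_finsetProd_iff hl.prime] at hld
      obtain ⟨i, _, hi⟩ := hld
      obtain ⟨k1, k2, k3, k4, k5, k6, k7⟩ := hf (m i) (hm i)
      rw [(Nat.prime_dvd_prime_iff_eq hl k4).1 hi]
      exact k2
    have hB : ∀ m : Fin ℓ → ℕ, (∀ i, m i ∈ cellM M H v) → ∀ l : ℕ, l.Prime →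
        l ∣ ∏ i, (f (m i)).2 → Bp l := by
      intro m hm l hl hld
      rw [Prime.dvd_finsetProd_iff hl.prime] at hld
      obtain ⟨i, _, hi⟩ := hld
      obtain ⟨k1, k2, k3, k4, k5, k6, k7⟩ := hf (m i) (hm i)
      rw [(Nat.prime_dvd_prime_iff_eq hl k5).1 hi]
      exact k3
    have hpr : ∀ m : Fin ℓ → ℕ, (∀ i, m i ∈ cellM M H v) →
        (∏ i, m i) = (∏ i, (f (m i)).1) * ∏ i, (f (m i)).2 := by
      intro m hm
      rw [← prod_mul_distrib]
      exact prod_congr rfl fun i _ => (hf (m i) (hm i)).1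
    refine part_unique (Ap := Ap) (Bp := Bp) (hA m h1) (hB m h1) (hA m₀ g1) (hB m₀ g1) hE.disj ?_ ?_
    · apply prod_pos
      intro i _
      exact (hf (m i) (h1 i)).2.2.2.1.pos
    · rw [← hpr m h1, ← hpr m₀ g1, h2, g2]
  set PA := (Pset Ap Bp E H v).filter (fun p => p.Prime) with hPA
  have hPAp : ∀ p ∈ PA, p.Prime := fun p hp => (mem_filter.1 hp).2
  have hinj : S.card ≤ (((Fintype.piFinset fun _ : Fin ℓ => PA).filter
      (fun m => (∏ i, m i) = P₀)) ×ˢ ((Fintype.piFinset fun _ : Fin ℓ => PA).filter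
      (fun m => (∏ i, m i) = Q₀))).card := by
    apply card_le_card_of_injOn (fun m => ((fun i => (f (m i)).1), (fun i => (f (m i)).2)))
    · intro m hm
      obtain ⟨h1, h2⟩ := hmem m hm
      obtain ⟨h3, h4⟩ := hparts m hm
      rw [mem_coe, mem_product, mem_filter, mem_filter, Fintype.mem_piFinset,
        Fintype.mem_piFinset]
      refine ⟨⟨fun i => ?_, h3⟩, ⟨fun i => ?_, h4⟩⟩
      · obtain ⟨k1, k2, k3, k4, k5, k6, k7⟩ := hf (m i) (h1 i)
        exact mem_filter.2 ⟨k6, k4⟩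
      · obtain ⟨k1, k2, k3, k4, k5, k6, k7⟩ := hf (m i) (h1 i)
        exact mem_filter.2 ⟨k7, k5⟩
    · intro m hm m' hm' h
      obtain ⟨h1, h2⟩ := hmem m hm
      obtain ⟨g1, g2⟩ := hmem m' hm'
      funext i
      have e1 := congrFun (congrArg Prod.fst h) i
      have e2 := congrFun (congrArg Prod.snd h) i
      simp only at e1 e2
      rw [(hf (m i) (h1 i)).1, (hf (m' i) (g1 i)).1, e1, e2]
  refine hinj.trans ?_
  rw [card_product, pow_two]
  exact Nat.mul_le_mul (smoo_ge_le PA hPAp ℓ P₀) (smoo_ge_le PA hPAp ℓ Q₀)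

/-- logarithm of the product of a tuple -/
lemma tuple_log (hE : Ele t c Ap Bp M E ρ ϖ) {H v ℓ : ℕ} {m : Fin ℓ → ℕ}
    (hm : m ∈ Fintype.piFinset fun _ : Fin ℓ => cellM M H v) :
    (v : ℝ) * ℓ / H ≤ Real.log ((∏ i, m i : ℕ) : ℝ) ∧
      Real.log ((∏ i, m i : ℕ) : ℝ) ≤ ((v : ℝ) + 1) * ℓ / H := by
  rw [Fintype.mem_piFinset] at hm
  have h1 : Real.log ((∏ i, m i : ℕ) : ℝ) = ∑ i, Real.log (m i : ℝ) := by
    push_cast
    rw [Real.log_prod]
    intro i _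
    have := M_pos hE (mem_cellM (hm i)).1
    positivity
  rw [h1]
  constructor
  · have : ∑ _i : Fin ℓ, ((v : ℝ) / H) ≤ ∑ i, Real.log (m i : ℝ) :=
      Finset.sum_le_sum fun i _ => (mem_cellM (hm i)).2.1
    rw [Finset.sum_const, Finset.card_univ, Fintype.card_fin, nsmul_eq_mul] at this
    calc (v : ℝ) * ℓ / H = ℓ * (v / H) := by ring
      _ ≤ _ := this
  · have : ∑ i, Real.log (m i : ℝ) ≤ ∑ _i : Fin ℓ, (((v : ℝ) + 1) / H) :=
      Finset.sum_le_sum fun i _ => (mem_cellM (hm i)).2.2.le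
    rw [Finset.sum_const, Finset.card_univ, Fintype.card_fin, nsmul_eq_mul] at this
    calc _ ≤ _ := this
      _ = ((v : ℝ) + 1) * ℓ / H := by ring

end Pool.Agent.W669.GA
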